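import Pool.Agent.Lib.MP_33c730_lc.Gs.Main

set_option autoImplicit false

namespace Pool.Agent.Results.MP_33c730_lc.GuardedSecondOrder

open Pool.MP_33c730_lc

/-- **Order-invariant first-order queries on arbitrary finite relational structures are definable in
guarded second-order logic.** Let `L` be a finite relational vocabulary and `φ` an order-invariant
first-order formula over `L` and `≤` with finitely many free variables. There is a formula `ψ` of
guarded second-order logic over `L` (no order) such that for ALL finite `L`-structures `M`, all
linear orders `o` on `M` and all values `v` of the free variables, `M ⊨ ψ(v)` if and only if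
`(M, o) ⊨ φ(v)`. For graphs guarded second-order logic is MSO with quantifiers over sets of vertices
and over sets of edges. -/
theorem result (L : FirstOrder.Language.{0, 0}) [L.IsRelational] [Finite (Σ n, L.Relations n)]
    (α : Type) [Finite α] (φ : (L.sum FirstOrder.Language.order).Formula α) (hφ : OrdInv L φ) :
    ∃ ψ : GSO L α Empty, ∀ (M : Type) [Finite M] [L.Structure M] (o : LinearOrder M) (v : α → M),
      ψ.Sat M v Empty.elim ↔ RealizeO L φ M o v :=
  main_gso L α φ hφ

end Pool.Agent.Results.MP_33c730_lc.GuardedSecondOrder
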