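import Pool.Agent.Lib.MP_33c730_lc.Ws.SpFlip

set_option autoImplicit false

namespace Pool.Agent.Results.MP_33c730_lc.Sparsifiable

open Pool.MP_33c730_lc Pool.MP_33c730_lc.Ws

/-- **Order-invariant first-order logic is contained in MSO on all graphs without `K_{t,t}` and
their flips, and on all sparsifiable classes of graphs.**
Let `C` be a finite set of colours and `φ` an order-invariant first-order sentence over
`{E, (P_c), <}`. For all `k`, `t` there is an MSO sentence `ψ` over `{E, (P_c)}` (no order, vertex
sets only) such that for all finite coloured graphs `G` which arise from graphs without subgraph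
`K_{t,t}` by flips of `k` vertex classes and all linear orders `<` on the vertices, `G ⊨ ψ` if and
only if `(G, <) ⊨ φ`. More generally this holds on every sparsifiable class `P`: for some `k`, `t`
and some MSO and first-order formulas, every graph `G` in `P` can be expanded by vertex sets so that
the MSO formulas define, on boundedly many copies of the vertex set of `G`, a graph without subgraph
`K_{t,t}` in which the first-order formula defines the adjacency of `G`. -/
theorem result (C : Type) [Finite C] (φ : FO C Empty) (hφ : OrderInvariant φ) :
    (∀ k t : ℕ, ∃ ψ : MSO C Empty Empty, ∀ (V : Type) [Finite V] (G : CG C V),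
      FlipKtt k t G.gr → ∀ lt : V → V → Prop, IsStrictTotalOrder V lt →
        (ψ.Sat G Empty.elim Empty.elim ↔ φ.Sat G lt Empty.elim)) ∧
    ∀ P : (∀ V : Type, CG C V → Prop), Sparsifiable C P →
      ∃ ψ : MSO C Empty Empty, ∀ (V : Type) [Finite V] (G : CG C V), P V G →
        ∀ lt : V → V → Prop, IsStrictTotalOrder V lt →
          (ψ.Sat G Empty.elim Empty.elim ↔ φ.Sat G lt Empty.elim) :=
  ⟨fun k t => main_sparsifiable C φ hφ _ (flip_sparsifiable C k t),
    fun P hP => main_sparsifiable C φ hφ P hP⟩

end Pool.Agent.Results.MP_33c730_lc.Sparsifiable
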