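import Pool.Agent.Lib.MP_33c730_lc.Md.HMain
import Pool.Agent.Lib.MP_33c730_lc.Md.Cog

set_option autoImplicit false

namespace Pool.Agent.Results.MP_33c730_lc.SubstitutionClosure

open Pool.MP_33c730_lc Pool.MP_33c730_lc.Md

/-- **Order-invariant first-order logic versus MSO on the substitution closure of sparse classes and
their flips, in particular on cographs.**
Let `C` be a finite set of colours and `φ` an order-invariant first-order sentence over
`{E, (P_c), <}`. For all `k`, `t` there is an MSO sentence `ψ` over `{E, (P_c)}` (no order, vertex
sets only) such that for all finite coloured graphs `G`, all of whose prime induced subgraphs with at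
least four vertices arise from graphs without subgraph `K_{t,t}` by flips of `k` vertex classes, and
for all linear orders `<` on the vertices, `G ⊨ ψ` if and only if `(G, <) ⊨ φ`. For `k = t = 0` this
class contains all graphs without induced path on four vertices. -/
theorem result (C : Type) [Finite C] :
    (∀ φ : FO C Empty, OrderInvariant φ → ∀ k t : ℕ,
      ∃ ψ : MSO C Empty Empty, ∀ (V : Type) [Finite V] (G : CG C V), PrimeFlip k t G.gr →
        ∀ lt : V → V → Prop, IsStrictTotalOrder V lt →
          (ψ.Sat G Empty.elim Empty.elim ↔ φ.Sat G lt Empty.elim)) ∧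
    ∀ (V : Type) [Finite V] (G : CG C V), P4Free G.gr → PrimeFlip 0 0 G.gr :=
  ⟨fun φ hφ k t => main_prime C k t φ hφ, fun _ _ _ h => primeFlip_cograph 0 0 h⟩

end Pool.Agent.Results.MP_33c730_lc.SubstitutionClosure
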