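import Pool.Agent.Lib.MP_33c730_lc.Tv.Syn

set_option autoImplicit false

namespace Pool.Agent.Results.MP_33c730_lc.TwoVariableOrder

open Pool.MP_33c730_lc

/-- **Order-invariant sentences using the order with two variables are contained in MSO on all
graphs.** `OMSO` is monadic second-order logic with counting quantifiers and with the order, and
`TwoVar` says that the scope of every quantifier over sets is free of the order, and that the scope
of every quantifier over elements is free of the order or has at most two free element variables.
For every order-invariant such sentence there is an MSO sentence `ψ` without the order such that for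
ALL finite vertex-coloured graphs `G` and all linear orders `<` we have `G ⊨ ψ` if and only if
`(G, <) ⊨ φ`. The second part is the special case of the first-order sentences of the problem. -/
theorem result (C : Type) :
    (∀ φ : OMSO C Empty Empty, φ.TwoVar → φ.Invariant →
      ∃ ψ : MSO C Empty Empty, ∀ (V : Type) [Finite V] (G : CG C V) (lt : V → V → Prop),
        IsStrictTotalOrder V lt →
          (ψ.Sat G Empty.elim Empty.elim ↔ φ.Sat G lt Empty.elim Empty.elim)) ∧
    (∀ φ : FO C Empty, φ.toOMSO.TwoVar → OrderInvariant φ →
      ∃ ψ : MSO C Empty Empty, ∀ (V : Type) [Finite V] (G : CG C V) (lt : V → V → Prop),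
        IsStrictTotalOrder V lt →
          (ψ.Sat G Empty.elim Empty.elim ↔ φ.Sat G lt Empty.elim)) := by
  refine ⟨fun φ h2 hφ => Tv.main_tv φ h2 hφ, fun φ h2 hφ => ?_⟩
  obtain ⟨ψ, hψ⟩ := Tv.main_tv φ.toOMSO h2 (fun V _ G r₁ r₂ h₁ h₂ =>
    (Tv.sat_toOMSO G r₁ φ _ _).trans ((hφ V G r₁ r₂ h₁ h₂).trans (Tv.sat_toOMSO G r₂ φ _ _).symm))
  exact ⟨ψ, fun V _ G lt hlt => (hψ V G lt hlt).trans (Tv.sat_toOMSO G lt φ _ _)⟩

end Pool.Agent.Results.MP_33c730_lc.TwoVariableOrder
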